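import Mathlib

/-!
# Project TQ (MP_ad0dc2_nt): the planes `x - y = 2 t z`.  Statements of the modules, with proofs.

THEOREM (`StFIN`). For every integer `t ≠ 0` the only integer solutions of `x ^ 3 + y ^ 3 + z ^ 3 = 2` with `x - y = 2 t z` are `(1, 1, 0)` and `F(t) = (1 - 6 t ^ 3, 1 + 6 t ^ 3, - 6 t ^ 2)`. So a sporadic solution with `x ≠ y` never has `2 z ∣ x - y`.

It is the parametric Thue equation `X ^ 3 + 4 c X Y ^ 2 + 4 Y ^ 3 = 1`, `c = 3 t ^ 2` (`x + y = 2 X`, `z = 2 Y`), of negative discriminant, with the solutions `(1, 0)`, `(1, - c)`. Let `a` be the real root of `T ^ 3 + 4 c T + 4`. The triple `(p, q, r)` stands for `p + q a + r a ^ 2` (`ev`), `mu` is the multiplication, `nm` the norm,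
`iv` the product of the two complex conjugates (the inverse if `nm = 1`). `(1, c, 0)` is a unit, with the value `1 + c a` about `1 / (4 c ^ 3)`; it generates the group of all units of norm 1 (`StSTP`: gap principle and `StSQR`), and none of its powers `n ≥ 2` has the form `X - a Y` (`StPAD`, 3-adic). All formulas for `mu`, `nm`, `iv` have been checked by computer.
-/

set_option autoImplicit false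

noncomputable section

namespace Pool.Agent.Helper30.TQ

/-- multiplication modulo `T ^ 3 + 4 c T + 4` -/
def mu (c : ℤ) (u v : ℤ × ℤ × ℤ) : ℤ × ℤ × ℤ :=
  (u.1 * v.1 - 4 * (u.2.1 * v.2.2 + u.2.2 * v.2.1),
   u.1 * v.2.1 + u.2.1 * v.1 - 4 * c * (u.2.1 * v.2.2 + u.2.2 * v.2.1) - 4 * u.2.2 * v.2.2,
   u.1 * v.2.2 + u.2.1 * v.2.1 + u.2.2 * v.1 - 4 * c * u.2.2 * v.2.2)

/-- norm -/
def nm (c : ℤ) (u : ℤ × ℤ × ℤ) : ℤ :=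
  u.1 ^ 3 - 8 * c * u.1 ^ 2 * u.2.2 + 16 * c ^ 2 * u.1 * u.2.2 ^ 2 + 4 * c * u.1 * u.2.1 ^ 2 + 12 * u.1 * u.2.1 * u.2.2 -
    16 * c * u.2.1 * u.2.2 ^ 2 - 4 * u.2.1 ^ 3 + 16 * u.2.2 ^ 3

/-- adjugate -/
def iv (c : ℤ) (u : ℤ × ℤ × ℤ) : ℤ × ℤ × ℤ :=
  (u.1 ^ 2 + 4 * c * u.2.1 ^ 2 + 16 * c ^ 2 * u.2.2 ^ 2 - 8 * c * u.1 * u.2.2 + 4 * u.2.1 * u.2.2,
   -(u.1 * u.2.1) - 4 * u.2.2 ^ 2, u.2.1 ^ 2 + 4 * c * u.2.2 ^ 2 - u.1 * u.2.2)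

/-- value at `a` -/
def ev (a : ℝ) (u : ℤ × ℤ × ℤ) : ℝ := (u.1 : ℝ) + (u.2.1 : ℝ) * a + (u.2.2 : ℝ) * a ^ 2

/-- powers of `(1, c, 0)` -/
def pw (c : ℤ) : ℕ → ℤ × ℤ × ℤ
  | 0 => (1, 0, 0)
  | n + 1 => mu c (pw c n) (1, c, 0)

/-- `a` is the real root -/
def Rt (c : ℤ) (a : ℝ) : Prop := a ^ 3 + 4 * (c : ℝ) * a + 4 = 0 ∧ -1 < a ∧ a < 0 ∧ 0 < 1 + (c : ℝ) * a ∧ 1 + (c : ℝ) * a < 1 ∧
  1 ≤ 5 * (c : ℝ) ^ 3 * (1 + (c : ℝ) * a)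

/-- (ALG, no hypotheses.) PROOF. `ring` (unfold; `Prod.ext`); the last one by `linear_combination` with a multiple of `a ^ 3 + 4 c a + 4 = 0` (the product of the two values minus the value of `mu` is `(a ^ 3 + 4 c a + 4)(q r' + r q' + r r' a)`). -/
def StALG : Prop := ∀ (c : ℤ) (u v w : ℤ × ℤ × ℤ), nm c (mu c u v) = nm c u * nm c v ∧ mu c u (iv c u) = (nm c u, 0, 0) ∧
  mu c u v = mu c v u ∧ mu c (mu c u v) w = mu c u (mu c v w) ∧ mu c (1, 0, 0) u = u ∧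
  ∀ a : ℝ, a ^ 3 + 4 * (c : ℝ) * a + 4 = 0 → ev a (mu c u v) = ev a u * ev a v

/-- (RTE, no hypotheses.) PROOF. `f(T) = T ^ 3 + 4 c T + 4` has `f(- 1 / c) = - 1 / c ^ 3 < 0 < 4 = f(0)`: a root `a` in `(- 1 / c, 0)` (intermediate value theorem). `1 + c a = - a ^ 3 / 4 > 0`. `- a = 4 / (4 c + a ^ 2) ≥ 1 / (c + 1 / (4 c ^ 2))`, so `1 / (1 + c a) = 4 / |a| ^ 3 ≤ 4 (c + 1 / (4 c ^ 2)) ^ 3 ≤ 5 c ^ 3` (`c ≥ 3`). -/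
def StRTE : Prop := ∀ c : ℤ, 3 ≤ c → ∃ a : ℝ, Rt c a

/-- (INJ, no hypotheses.) PROOF. `a` is irrational: a rational root of `T ^ 3 + 4 c T + 4` is an integer, but `- 1 < a < 0`. If `q ^ 3 + 4 c q r ^ 2 + 4 r ^ 3 = 0` and `r ≠ 0`, then `q / r` is a rational root of `T ^ 3 + 4 c T + 4`, so an integer `k` with `k ^ 3 + 4 c k + 4 = 0`, and the real root is unique (`f` is increasing), so `k = a`: contradiction; `r = 0` gives `q = 0`.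
Let `p + q a + r a ^ 2 = 0`. If `r = 0`, then `q = 0` (`a` irrational), `p = 0`. If `r ≠ 0`, multiply by `a` and use the equation of `a`: `(q ^ 2 + 4 c r ^ 2 - p r) a + (p q + 4 r ^ 2) = 0`, so both brackets are 0, `p q = - 4 r ^ 2`, and `q (q ^ 2 + 4 c r ^ 2 - p r) = q ^ 3 + 4 c q r ^ 2 + 4 r ^ 3 = 0`, contradiction. -/
def StINJ : Prop := ∀ c : ℤ, 3 ≤ c → ∀ a : ℝ, Rt c a → (∀ u : ℤ × ℤ × ℤ, ev a u = 0 → u = (0, 0, 0)) ∧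
  ∀ q r : ℤ, q ^ 3 + 4 * c * q * r ^ 2 + 4 * r ^ 3 = 0 → q = 0 ∧ r = 0

/-- (GAP, assume `hI : StINJ`.) PROOF. `u = (p, q, r)`, `E = ev a u > 1`, `W = q - a r`, `R = p - q a / 2 - r (a ^ 2 + 8 c) / 2`, `M = 3 a ^ 2 / 4 + 4 c`, `Q = R ^ 2 + M W ^ 2`. Identities (modulo `a ^ 3 + 4 c a + 4 = 0`): `E Q = nm c u = 1`, `(E - R) ^ 2 + M W ^ 2 = (3 a ^ 2 + 4 c)(q ^ 2 + a q r + (a ^ 2 + 4 c) r ^ 2)`,
`W (q ^ 2 + a q r + (a ^ 2 + 4 c) r ^ 2) = f`, `f = q ^ 3 + 4 c q r ^ 2 + 4 r ^ 3`. If `q = r = 0`, then `p ^ 3 = 1`, `E = 1`: excluded. So `f ≠ 0` (INJ), `f ^ 2 ≥ 1`, and `W ^ 2 ((E - R) ^ 2 + M W ^ 2) ^ 2 = (3 a ^ 2 + 4 c) ^ 2 f ^ 2 ≥ 16 c ^ 2`. Let `E = D ^ 2`, `D > 1`. `Q = 1 / D ^ 2`, so `|R| ≤ 1 / D`, `W ^ 2 ≤ 1 / (4 c D ^ 2)`,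
`(E - R) ^ 2 + M W ^ 2 = E ^ 2 - 2 E R + Q ≤ D ^ 4 + 2 D + 1 / D ^ 2 = (D ^ 2 + 1 / D) ^ 2`. So `64 c ^ 3 ≤ (D ^ 2 + 1 / D) ^ 4 / D ^ 2 = (D ^ 3 + 2 + 1 / D ^ 3) ^ 2 ≤ (D ^ 3 + 3) ^ 2`, `D ^ 3 ≥ 8 c ^ (3/2) - 3 ≥ 7 c ^ (3/2)` (`c ^ 3 ≥ 9`), `E ^ 3 = D ^ 6 ≥ 49 c ^ 3`. -/
def StGAP : Prop := ∀ c : ℤ, 3 ≤ c → ∀ a : ℝ, Rt c a → ∀ u : ℤ × ℤ × ℤ, nm c u = 1 → 1 < ev a u → 49 * (c : ℝ) ^ 3 ≤ ev a u ^ 3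

/-- (SQR, no hypotheses.) PROOF. `u = (p, b, d)` with `p ^ 2 - 8 b d = 1`, `2 p b - 8 c b d - 4 d ^ 2 = c`, `b ^ 2 + 2 p d - 4 c d ^ 2 = 0`. `p` is odd, `b` even (`b ^ 2` is even), `b = 2 b₁`: `2 b₁ ^ 2 + p d - 2 c d ^ 2 = 0`, so `d` is even, `d = 2 d₁`: `b₁ ^ 2 = d₁ (4 c d₁ - p)`. `p ^ 2 = 1 + 32 b₁ d₁`, so `gcd(d₁, p) = 1` and `d₁`, `4 c d₁ - p` are coprime: `d₁ = σ m ^ 2`,
`4 c d₁ - p = σ n ^ 2`, `b₁ = τ m n` with `σ, τ ∈ {1, - 1}`, `m, n ≥ 0`. The second equation is `4 b₁ (p - 8 c d₁) - 16 d₁ ^ 2 = c`, `p - 8 c d₁ = - σ (n ^ 2 + 4 c m ^ 2)`, so `- 4 σ τ m n (n ^ 2 + 4 c m ^ 2) = c + 16 m ^ 4 > 0`, hence `σ τ = - 1` and `m, n ≥ 1`. The first equation is `p ^ 2 = 1 + 32 σ τ m ^ 3 n = 1 - 32 m ^ 3 n < 0`: contradiction. -/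
def StSQR : Prop := ∀ c : ℤ, 1 ≤ c → ∀ u : ℤ × ℤ × ℤ, mu c u u ≠ (1, c, 0)

/-- (STP, assume `hA : StALG`, `hI : StINJ`, `hG : StGAP`, `hS : StSQR`.) PROOF. Let `e = 1 + c a = ev a (1, c, 0)`, `nm c (1, c, 0) = 1`. Suppose `nm c u = 1`, `e < ev a u < 1`. `A = ev a (iv c u) = 1 / ev a u > 1`, `B = ev a (mu c u (iv c (1, c, 0))) = ev a u / e > 1` are values of elements of norm 1 (`nm c (iv c u) = nm c u ^ 2`), `A B = 1 / e ≤ 5 c ^ 3`. By GAP `A ^ 3, B ^ 3 ≥ 49 c ^ 3`.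
If `A > B`: `A / B` is the value of `mu c (mu c (iv c u) (iv c u)) (1, c, 0)`, of norm 1, so `(A / B) ^ 3 ≥ 49 c ^ 3` and `(A B) ^ 3 = B ^ 6 (A / B) ^ 3 ≥ (49 c ^ 3) ^ 3 > (5 c ^ 3) ^ 3`: contradiction. `A < B`: the same with `B / A`, the value of `mu c (mu c u u) (iv c (1, c, 0))`. `A = B`: `ev a (mu c u u) = e = ev a (1, c, 0)`,
so `mu c u u = (1, c, 0)` (INJ), against SQR. -/
def StSTP : Prop := ∀ c : ℤ, 3 ≤ c → ∀ a : ℝ, Rt c a → ∀ u : ℤ × ℤ × ℤ, nm c u = 1 → 1 + (c : ℝ) * a < ev a u → ¬ ev a u < 1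

/-- (PAD, no hypotheses.) PROOF. Let `ϑ ^ k` be the `k`-th power of `(0, 1, 0)` for `mu` and `λ_k` its third entry: `λ_2 = 1`, `λ_3 = 0`. Binomial theorem: the third entry of `pw c n` is `∑_{2 ≤ k ≤ n} C(n, k) c ^ k λ_k`. Let `3 ^ v` be the exact power of 3 in `C(n, 2) c ^ 2` (`≠ 0`). For `k ≥ 4`: `k (k - 1) C(n, k) = n (n - 1) C(n - 2, k - 2)`, so
`C(n, k) c ^ k` is divisible by 3 to the power `v + (k - 2) - v₃(k (k - 1)) ≥ v + 1` (at most one of `k`, `k - 1` is divisible by 3, and `3 ^ j ≤ k` implies `j ≤ k - 3` for `k ≥ 4`). So the third entry is `≡ C(n, 2) c ^ 2 ≢ 0` modulo `3 ^ (v + 1)`. -/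
def StPAD : Prop := ∀ c : ℤ, 3 ∣ c → c ≠ 0 → ∀ n : ℕ, 2 ≤ n → (pw c n).2.2 ≠ 0

/-- (THU, assume `hA : StALG`, `hR : StRTE`, `hI : StINJ`, `hS : StSTP`, `hP : StPAD`.) PROOF. `u = (X, - Y, 0)`, `nm c u = X ^ 3 + 4 c X Y ^ 2 + 4 Y ^ 3 = 1`, `E = ev a u = X - a Y`. `Y = 0` gives `X = 1`. Let `Y ≠ 0`. `E (X ^ 2 + a X Y + (a ^ 2 + 4 c) Y ^ 2) = 1` and the bracket is `≥ (3 a ^ 2 / 4 + 4 c) Y ^ 2 ≥ 12`, so `0 < E < 1`. `e = 1 + c a ∈ (0, 1)`: there is `n ≥ 1` with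
`e ^ n ≤ E < e ^ (n - 1)`. `w = mu c u (iv c (pw c (n - 1)))` has norm 1 and `ev a w = E / e ^ (n - 1) ∈ [e, 1)`, so `ev a w = e` (STP), `w = (1, c, 0)` (INJ), `E = e ^ n`, `u = pw c n` (INJ). Its third entry is 0, so `n = 1` (PAD), `u = (1, c, 0)`. -/
def StTHU : Prop := ∀ c : ℤ, 3 ≤ c → 3 ∣ c → ∀ X Y : ℤ, X ^ 3 + 4 * c * X * Y ^ 2 + 4 * Y ^ 3 = 1 →
  (X = 1 ∧ Y = 0) ∨ (X = 1 ∧ Y = -c)

/-- (FIN, assume `hT : StTHU`.) PROOF. `x + y = 2 X` is even (`x - y` is), `x = X + t z`, `y = X - t z`, `2 X ^ 3 + 6 t ^ 2 X z ^ 2 + z ^ 3 = 2`, so `z = 2 Y` is even and `X ^ 3 + 12 t ^ 2 X Y ^ 2 + 4 Y ^ 3 = 1`: THU with `c = 3 t ^ 2`. -/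
def StFIN : Prop := ∀ t : ℤ, t ≠ 0 → ∀ x y z : ℤ, x ^ 3 + y ^ 3 + z ^ 3 = 2 → x - y = 2 * t * z →
  (x = 1 ∧ y = 1 ∧ z = 0) ∨ (x = 1 - 6 * t ^ 3 ∧ y = 1 + 6 * t ^ 3 ∧ z = -6 * t ^ 2)

end Pool.Agent.Helper30.TQ
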